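import Pool.Agent.helper62.DP8.Spec

/-!
# Project sq8: module `SAV`
-/

set_option autoImplicit false

namespace Pool.Agent.helper62.DP8

theorem SAV_pick {V W : Type} (H : SimpleGraph V) (R : W → W → Prop) (L : V → Finset W) (hC : Cov H R L) (v w : V) (hvw : v ≠ w)
    (hlt : (L w).card < (L v).card) : ∃ x ∈ L v, ∀ y ∈ L w, ¬ R x y := by
  classical
  by_contra hcon
  push Not at hcon
  choose! f hf1 hf2 using hcon
  have hinj : Set.InjOn f (L v : Set W) := by
    intro a ha b hb hab
    have ha' : a ∈ L v := ha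
    have hb' : b ∈ L v := hb
    refine hC.mat w v hvw.symm (f a) (hf1 a ha') a ha' b hb' (hC.symm _ _ (hf2 a ha')) ?_
    rw [hab]
    exact hC.symm _ _ (hf2 b hb')
  have hle : (L v).card ≤ (L w).card := by
    refine Finset.card_le_card_of_injOn f ?_ hinj
    intro a ha
    exact hf1 a ha
  omega

theorem SAV_pos {V : Type} (H : SimpleGraph V) (T : Finset V) (v w : V) (hw : w ∈ T) (hvw : H.Adj v w) : 1 ≤ dg H T v := by
  classical
  unfold dg
  rw [Nat.one_le_iff_ne_zero, Ne, Finset.card_eq_zero]
  intro h0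
  have : w ∈ (T.filter (fun u => H.Adj v u)) := Finset.mem_filter.2 ⟨hw, hvw⟩
  rw [h0] at this
  exact absurd this (Finset.notMem_empty _)

theorem SAV (hCOL : COL_stmt) (hDGE : DGE_stmt) : SAV_stmt := by
  intro V _ H T s v w hv hw hvw hdeg hP W R L hW hC hL
  have hne : v ≠ w := hvw.ne
  have hposw : 1 ≤ dg H T w := SAV_pos H T w v hv hvw.symm
  have hx : ∃ x ∈ L v, dg H T w + s w ≤ (L w).card ∨ ∀ y ∈ L w, ¬ R x y := by
    by_cases h1 : dg H T w + s w ≤ (L w).card
    · have h2 : 0 < (L v).card := by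
        have := hL v hv
        omega
      obtain ⟨x, hx⟩ := Finset.card_pos.1 h2
      exact ⟨x, hx, Or.inl h1⟩
    · have h2 : (L w).card < (L v).card := by
        have := hL v hv
        omega
      obtain ⟨x, hx, hx2⟩ := SAV_pick H R L hC v w hne h2
      exact ⟨x, hx, Or.inr hx2⟩
  obtain ⟨x, hx, hxw⟩ := hx
  obtain ⟨L', hC', hmem, hgood, hnon, hcard⟩ := hCOL V H W R L hC v x hx
  refine hgood T hv (hP W R L' hW hC' ?_)
  intro u hu
  have huv : u ≠ v := (Finset.mem_erase.1 hu).1
  have huT : u ∈ T := (Finset.mem_erase.1 hu).2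
  have hLu := hL u huT
  obtain ⟨hd1, hd2⟩ := hDGE V H T u v
  have hcu := hcard u huv
  by_cases huw : u = w
  · subst huw
    simp only [if_true]
    have h3 := hd1 hvw.symm hv
    rcases hxw with h4 | h4
    · omega
    · have h5 : L' u = L u := by
        ext y
        rw [hmem]
        constructor
        · exact fun h => h.1
        · exact fun h => ⟨h, Or.inr (h4 y h)⟩
      rw [h5]
      omega
  · simp only [huw, if_false]
    by_cases hadj : H.Adj u v
    · have h3 := hd1 hadj hv
      omega
    · have h3 := hd2 hadj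
      have h4 := hnon u huv (fun h => hadj h.symm)
      rw [h4]
      omega

end Pool.Agent.helper62.DP8
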